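import Pool.Agent.W759.TR.Defs

namespace Pool.Agent.W667.TR

open MeasureTheory ProbabilityTheory Set Filter
open Pool.Agent.W759.TR
open Pool.Agent.W759.FD (house rs)

/-- The restrictions of an independent family to disjoint index sets are independent. -/
theorem rs_indep {ι T : Type} [MeasurableSpace T] (μ : ι → Measure T)
    [∀ i, IsProbabilityMeasure (μ i)] (S S' : Set ι) (h : Disjoint S S') :
    IndepFun (rs (T := T) S) (rs (T := T) S') (Measure.infinitePi μ) := by
  have h1 : iIndepFun (fun (i : ι) (ω : ι → T) => ω i) (Measure.infinitePi μ) :=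
    iIndepFun_infinitePi (X := fun _ x => x) (fun _ => measurable_id)
  have h2 := indep_iSup_of_disjoint (fun i => (measurable_pi_apply i).comap_le) h1 h
  have key : ∀ R : Set ι, MeasurableSpace.comap (rs (T := T) R) inferInstance =
      ⨆ i ∈ R, MeasurableSpace.comap (fun (ω : ι → T) => ω i) inferInstance := by
    intro R
    change MeasurableSpace.comap (rs (T := T) R) MeasurableSpace.pi = _
    rw [MeasurableSpace.pi, MeasurableSpace.comap_iSup, iSup_subtype']
    congr 1
    funext i
    rw [MeasurableSpace.comap_comp]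
    rfl
  rw [IndepFun_iff_Indep, key, key]
  exact h2

/-- Independence on a product space of pairs of independent functions. -/
theorem prod_indep {Ω Ω' α α' β β' : Type} [MeasurableSpace Ω] [MeasurableSpace Ω']
    [MeasurableSpace α] [MeasurableSpace α'] [MeasurableSpace β] [MeasurableSpace β']
    (μ : Measure Ω) (ν : Measure Ω') [IsProbabilityMeasure μ] [IsProbabilityMeasure ν]
    (f : Ω → α) (f' : Ω → α') (g : Ω' → β) (g' : Ω' → β')
    (hf : Measurable f) (hf' : Measurable f') (hg : Measurable g) (hg' : Measurable g')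
    (h1 : IndepFun f f' μ) (h2 : IndepFun g g' ν) :
    IndepFun (fun ω : Ω × Ω' => (f ω.1, g ω.2)) (fun ω : Ω × Ω' => (f' ω.1, g' ω.2))
      (μ.prod ν) := by
  rw [IndepFun_iff_Indep]
  have hm1 : Measurable (fun ω : Ω × Ω' => (f ω.1, g ω.2)) := by fun_prop
  have hm2 : Measurable (fun ω : Ω × Ω' => (f' ω.1, g' ω.2)) := by fun_prop
  refine IndepSets.indep hm1.comap_le hm2.comap_le
    (p1 := preimage (fun ω : Ω × Ω' => (f ω.1, g ω.2)) ''
      (image2 (· ×ˢ ·) {s | MeasurableSet s} {t | MeasurableSet t}))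
    (p2 := preimage (fun ω : Ω × Ω' => (f' ω.1, g' ω.2)) ''
      (image2 (· ×ˢ ·) {s | MeasurableSet s} {t | MeasurableSet t})) ?_ ?_ ?_ ?_ ?_
  · exact isPiSystem_prod.comap _
  · exact isPiSystem_prod.comap _
  · rw [← MeasurableSpace.comap_generateFrom, generateFrom_prod]
  · rw [← MeasurableSpace.comap_generateFrom, generateFrom_prod]
  · rw [IndepSets_iff]
    rintro _ _ ⟨_, ⟨a, ha, b, hb, rfl⟩, rfl⟩ ⟨_, ⟨c, hc, d, hd, rfl⟩, rfl⟩
    have e1 : (fun ω : Ω × Ω' => (f ω.1, g ω.2)) ⁻¹' (a ×ˢ b) = (f ⁻¹' a) ×ˢ (g ⁻¹' b) := rfl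
    have e2 : (fun ω : Ω × Ω' => (f' ω.1, g' ω.2)) ⁻¹' (c ×ˢ d) = (f' ⁻¹' c) ×ˢ (g' ⁻¹' d) := rfl
    simp only [e1, e2]
    rw [prod_inter_prod, Measure.prod_prod, Measure.prod_prod, Measure.prod_prod,
      h1.measure_inter_preimage_eq_mul _ _ ha hc, h2.measure_inter_preimage_eq_mul _ _ hb hd]
    ring


variable {V : Type}

/-- The vertices of `A` and their neighbours. -/
def nb (G : SimpleGraph V) (A : Set V) : Set V := {v | v ∈ A ∨ ∃ a ∈ A, G.Adj a v}

/-- The indices of the houses started in `A`. -/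
def idx (A : Set V) : Set (Key × (V × ℕ)) := {k | k.2.1 ∈ A}

theorem dite_choose {α β : Type} (P Q : α → Prop) (hPQ : P = Q) (f g : α → β) (c : β)
    [Decidable (∃ u, P u)] [Decidable (∃ u, Q u)] (hfg : ∀ x, P x → f x = g x) :
    (if h : ∃ u, P u then f h.choose else c) = (if h : ∃ u, Q u then g h.choose else c) := by
  subst hPQ
  by_cases h : ∃ u, P u
  · rw [dif_pos h, dif_pos h]
    exact hfg _ h.choose_spec
  · rw [dif_neg h, dif_neg h]

theorem isU_congr (G : SimpleGraph V) (A : Set V) (U U' : V → Lab)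
    (hU : ∀ v ∈ nb G A, U v = U' v) (u v : V) (hu : u ∈ A) (c : Lab) :
    IsU G U u c v → IsU G U' u c v := by
  rintro ⟨h1, h2, h3⟩
  refine ⟨h1, ?_, ?_⟩
  · rw [← hU v (Or.inr ⟨u, hu, h1⟩)]
    exact h2
  · intro u' h4 h5
    rw [← hU u' (Or.inr ⟨u, hu, h4⟩)] at h5
    exact h3 u' h4 h5

theorem first_congr (G : SimpleGraph V) (A C : Set V)
    (hAC : ∀ u ∈ C, ∀ a ∈ A, G.Adj a u → u ∈ A) (U U' : V → Lab)
    (hU : ∀ v ∈ nb G A, U v = U' v) (w : List Lab) :
    ∀ (j : ℕ) (v : V), v ∈ A →
      first G C U w j v = first G C U' w j v ∧ (first G C U w j v).1 ∈ A := by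
  classical
  have hU' : ∀ v ∈ nb G A, U' v = U v := fun v hv => (hU v hv).symm
  intro j
  induction j with
  | zero => intro v hv; exact ⟨rfl, hv⟩
  | succ j ih =>
    intro v hv
    have hA : ∀ u, (u ∈ C ∧ v ∈ C ∧ Link G U w j u v) → u ∈ A := by
      rintro u ⟨hu, _, h, _⟩
      exact hAC u hu v hv h.1.symm
    have hP : (fun u => u ∈ C ∧ v ∈ C ∧ Link G U w j u v) =
        (fun u => u ∈ C ∧ v ∈ C ∧ Link G U' w j u v) := by
      funext u
      apply propext
      constructor
      · rintro ⟨h1, h2, h3, h4⟩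
        have hu : u ∈ A := hAC u h1 v hv h3.1.symm
        exact ⟨h1, h2, isU_congr G A U U' hU u v hu _ h3, isU_congr G A U U' hU v u hv _ h4⟩
      · rintro ⟨h1, h2, h3, h4⟩
        have hu : u ∈ A := hAC u h1 v hv h3.1.symm
        exact ⟨h1, h2, isU_congr G A U' U hU' u v hu _ h3, isU_congr G A U' U hU' v u hv _ h4⟩
    constructor
    · rw [first, first]
      exact dite_choose _ _ hP _ _ _ (fun u hu => (ih u (hA u hu)).1)
    · rw [first]
      split_ifs with h
      · exact (ih _ (hA _ h.choose_spec)).2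
      · exact hv

/-- The restriction of the environment. -/
def res (G : SimpleGraph V) (A : Set V) (ω : Env V) :
    (nb G A → Lab) × (idx A → ℕ → Bool) := (rs (nb G A) ω.1, rs (idx A) ω.2)

open Classical in
/-- The extension of a restricted environment. -/
noncomputable def ext (G : SimpleGraph V) (A : Set V)
    (p : (nb G A → Lab) × (idx A → ℕ → Bool)) : Env V :=
  (fun v => if h : v ∈ nb G A then p.1 ⟨v, h⟩ else 0,
    fun k => if h : k ∈ idx A then p.2 ⟨k, h⟩ else fun _ => false)

theorem measurable_ext (G : SimpleGraph V) (A : Set V) : Measurable (ext G A) := by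
  unfold ext
  refine Measurable.prodMk (measurable_pi_lambda _ fun v => ?_)
    (measurable_pi_lambda _ fun k => ?_)
  · split_ifs with h
    · fun_prop
    · fun_prop
  · split_ifs with h
    · fun_prop
    · fun_prop

theorem XC_ext (G : SimpleGraph V) (A C : Set V)
    (hAC : ∀ u ∈ C, ∀ a ∈ A, G.Adj a u → u ∈ A) (ω : Env V) :
    (fun a : A => XC G C ω a) = (fun a : A => XC G C (ext G A (res G A ω)) a) := by
  have hU : ∀ v ∈ nb G A, ω.1 v = (ext G A (res G A ω)).1 v := by
    intro v hv
    simp only [ext, res, rs]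
    rw [dif_pos hv]
  funext a
  have h := fun (q : Key × ℕ) =>
    first_congr G A C hAC ω.1 (ext G A (res G A ω)).1 hU q.1.2 q.2 a a.2
  refine Prod.ext (hU a (Or.inl a.2)) ?_
  funext q
  change ω.2 (q.1, first G C ω.1 q.1.2 q.2 a) q.2 =
    (ext G A (res G A ω)).2 (q.1, first G C (ext G A (res G A ω)).1 q.1.2 q.2 a) q.2
  rw [← (h q).1]
  have hi : (q.1, first G C ω.1 q.1.2 q.2 a) ∈ idx A := (h q).2
  simp only [ext, res, rs]
  rw [dif_pos hi]

theorem nb_disjoint (G : SimpleGraph V) (A B : Set V)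
    (hAB : ∀ a ∈ A, ∀ b ∈ B, 2 < G.dist a b) : Disjoint (nb G A) (nb G B) := by
  rw [Set.disjoint_left]
  intro v hA hB
  have h1 : ∃ a ∈ A, ∃ p : G.Walk a v, p.length ≤ 1 := by
    rcases hA with h | ⟨a, ha, h⟩
    · exact ⟨v, h, SimpleGraph.Walk.nil, by simp⟩
    · exact ⟨a, ha, h.toWalk, by simp⟩
  have h2 : ∃ b ∈ B, ∃ p : G.Walk v b, p.length ≤ 1 := by
    rcases hB with h | ⟨b, hb, h⟩
    · exact ⟨v, h, SimpleGraph.Walk.nil, by simp⟩
    · exact ⟨b, hb, h.symm.toWalk, by simp⟩
  obtain ⟨a, ha, p, hp⟩ := h1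
  obtain ⟨b, hb, q, hq⟩ := h2
  have h3 := SimpleGraph.dist_le (p.append q)
  rw [SimpleGraph.Walk.length_append] at h3
  have := hAB a ha b hb
  omega

theorem t5 : T5 := by
  intro h0 h2 h4 V _ G A B hAB
  have hpH : ∀ k : Key × (V × ℕ), IsProbabilityMeasure (house (k.1.1.1 + 1)) :=
    fun k => h0.1 _ (Nat.succ_pos _)
  have : IsProbabilityMeasure (PU V) := by unfold PU; infer_instance
  have : IsProbabilityMeasure (PH V) := by unfold PH; infer_instance
  have : IsProbabilityMeasure (PE V) := by unfold PE; infer_instance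
  have hnb := nb_disjoint G A B hAB
  have hid : Disjoint (idx A) (idx B) := by
    rw [Set.disjoint_left]
    intro k hA hB
    exact Set.disjoint_left.1 hnb (Or.inl hA) (Or.inl hB)
  set C : Set V := A ∪ B with hC
  have hAC : ∀ u ∈ C, ∀ a ∈ A, G.Adj a u → u ∈ A := by
    rintro u (hu | hu) a ha h
    · exact hu
    · exact absurd (Or.inl hu : u ∈ nb G B) (Set.disjoint_left.1 hnb (Or.inr ⟨a, ha, h⟩))
  have hBC : ∀ u ∈ C, ∀ b ∈ B, G.Adj b u → u ∈ B := by
    rintro u (hu | hu) b hb h
    · exact absurd (Or.inr ⟨b, hb, h⟩ : u ∈ nb G B) (Set.disjoint_left.1 hnb (Or.inl hu))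
    · exact hu
  have hX := h2 V G C
  have hXu := h2 V G univ
  have hres : IndepFun (res G A) (res G B) (PE V) := by
    have h := prod_indep (PU V) (PH V) (rs (nb G A)) (rs (nb G B)) (rs (idx A)) (rs (idx B))
      (by unfold rs; fun_prop) (by unfold rs; fun_prop) (by unfold rs; fun_prop)
      (by unfold rs; fun_prop) (rs_indep _ _ _ hnb) (rs_indep _ _ _ hid)
    exact h
  have hrA : Measurable (fun x : V → S1 => fun a : A => x a) := by fun_prop
  have hrB : Measurable (fun x : V → S1 => fun b : B => x b) := by fun_prop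
  have hind : IndepFun (fun ω : Env V => fun a : A => XC G C ω a)
      (fun ω : Env V => fun b : B => XC G C ω b) (PE V) := by
    have h := hres.comp (φ := fun p => fun a : A => XC G C (ext G A p) a)
      (ψ := fun p => fun b : B => XC G C (ext G B p) b)
      (hrA.comp (hX.comp (measurable_ext G A))) (hrB.comp (hX.comp (measurable_ext G B)))
    have e1 : (fun ω : Env V => fun a : A => XC G C ω a) =
        (fun p => fun a : A => XC G C (ext G A p) a) ∘ res G A :=
      funext fun ω => XC_ext G A C hAC ω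
    have e2 : (fun ω : Env V => fun b : B => XC G C ω b) =
        (fun p => fun b : B => XC G C (ext G B p) b) ∘ res G B :=
      funext fun ω => XC_ext G B C hBC ω
    rw [e1, e2]
    exact h
  have hXA : Measurable (fun ω : Env V => fun a : A => XC G C ω a) := hrA.comp hX
  have hXB : Measurable (fun ω : Env V => fun b : B => XC G C ω b) := hrB.comp hX
  have hκ : Measurable (fun y : C → S1 =>
      ((fun a : A => y ⟨a, Or.inl a.2⟩), (fun b : B => y ⟨b, Or.inr b.2⟩))) := by
    fun_prop
  have hrs : Measurable (rs (T := S1) C) := by unfold rs; fun_prop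
  have hjoint : (muT G).map (fun x : V → S1 => ((fun a : A => x a), (fun b : B => x b))) =
      (PE V).map (fun ω : Env V =>
        ((fun a : A => XC G C ω a), (fun b : B => XC G C ω b))) := by
    have h := congrArg (Measure.map (fun y : C → S1 =>
      ((fun a : A => y ⟨a, Or.inl a.2⟩), (fun b : B => y ⟨b, Or.inr b.2⟩)))) (h4 V G C)
    have q1 : Measurable (fun ω : Env V => rs C (XC G univ ω)) := hrs.comp hXu
    have q2 : Measurable (fun ω : Env V => rs C (XC G C ω)) := hrs.comp hX
    rw [Measure.map_map hκ q1, Measure.map_map hκ q2] at h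
    unfold muT
    rw [Measure.map_map (hrA.prodMk hrB) hXu]
    exact h
  have : IsProbabilityMeasure (muT G) := by
    unfold muT
    exact Measure.isProbabilityMeasure_map hXu.aemeasurable
  change IndepFun (fun x : V → S1 => fun a : A => x a) (fun x : V → S1 => fun b : B => x b)
    (muT G)
  rw [indepFun_iff_map_prod_eq_prod_map_map hrA.aemeasurable hrB.aemeasurable]
  have m1 : (muT G).map (fun x : V → S1 => fun a : A => x a) =
      (PE V).map (fun ω : Env V => fun a : A => XC G C ω a) := by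
    have h := congrArg (Measure.map Prod.fst) hjoint
    rw [Measure.map_map measurable_fst (hrA.prodMk hrB),
      Measure.map_map measurable_fst (hXA.prodMk hXB)] at h
    exact h
  have m2 : (muT G).map (fun x : V → S1 => fun b : B => x b) =
      (PE V).map (fun ω : Env V => fun b : B => XC G C ω b) := by
    have h := congrArg (Measure.map Prod.snd) hjoint
    rw [Measure.map_map measurable_snd (hrA.prodMk hrB),
      Measure.map_map measurable_snd (hXA.prodMk hXB)] at h
    exact h
  rw [m1, m2, hjoint]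
  exact (indepFun_iff_map_prod_eq_prod_map_map hXA.aemeasurable hXB.aemeasurable).1 hind

end Pool.Agent.W667.TR
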